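import Pool.Agent.Run7.h912.PA.RealScales
import Pool.Agent.Run7.h70.IHP.Final

set_option autoImplicit false

/-!
# MP_4b405e_nt: patterns with exponent larger than `n/2`, uniformly in all dimensions and at all scales

For a finite set `T` of real numbers let `HasPattern T R B` say that `B ⊆ ℝ^n` contains, for every
`r ∈ R`, a pattern `a + t r`, `t ∈ T`; for `T = {0, 1, …, k-1}` this is a `k`-term progression with
common difference `r`. The exponents `fM T n` and `fP T n` are the infima of the upper Minkowski and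
of the packing dimensions of the bounded sets `B ⊆ ℝ^n` that contain the pattern for all
`r ∈ [0,1]^n`. They are at least `n/2` for trivial reasons, and Q1 asks whether `fM T n` tends to `n`
for progressions.

Let `t₀, t₁, t₂ ∈ T` be distinct, and let `k` be the field generated by the cross ratios of
`t₀, t₁, t₂` and a fourth element of `T`.

1. If the ratio `(t₂ - t₀) / (t₁ - t₀)` lies in `k` then there is `κ < 2`, depending on `T` only, such
   that in ALL dimensions `n`, for all bounded sets `B` which contain the pattern for all `r` in ANY set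
   `R` and at EVERY scale `δ > 0` one has `N_δ(R) ≤ C N_δ(B) ^ κ`, with `C` depending on `T` and `n` only.
   In particular `dim B ≥ dim R / κ` for the lower and for the upper Minkowski dimension, and
   `fM T n ≥ fP T n ≥ n / κ`.
2. Otherwise `fM T n = fP T n = n / 2` for all `n` (this is part of the page result
   `CrossRatioPatterns`), so that there is no such inequality.

For instance 1. holds for all rational patterns with at least three elements (up to similarity), for
`{0, 1, q, q²}` for all real `q ≠ 0, 1, -1`, and for `{0, 1, √2, √3}`; but not for `{0, 1, θ}` with `θ`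
irrational, and not for `{0} ∪ {1 / (j + θ) : j = 0, …, m}` with `θ` irrational.

Proof of 1. If there is no such `κ` then there are sets `R_j, B_j ⊆ ℝ^(n_j)` and scales `δ_j` with
`N(R_j) ≥ N(B_j) ^ (2 - 1/j)` (covering numbers at the scale `δ_j`) and such that `N(B_j)` is larger than
`2 ^ (j n_j)`. Rounding costs factors `C ^ (n_j) = N(B_j) ^ o(1)` only. So the argument of
`Run7/h70/IHP/Approx`, `NoConfig` (Balog-Szemeredi-Gowers theorem; Ruzsa's triangle inequality and
Pluennecke's inequality for rounded dilates; the multipliers with small rounded sums form a field) works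
along a sequence of growing dimensions, and gives a contradiction.
-/

open Filter Topology

namespace Pool.Agent.Results.MP_4b405e_nt.AlgebraicPatternsAboveHalf

/-- Euclidean space `ℝ^n`. -/
abbrev E (n : ℕ) := EuclideanSpace ℝ (Fin n)

/-- The least number of sets of diameter at most `δ` covering `B` (for bounded `B`). -/
noncomputable def coverNum {n : ℕ} (B : Set (E n)) (δ : ℝ) : ℕ :=
  sInf {N | ∃ U : Fin N → Set (E n),
    (∀ i, ∀ x ∈ U i, ∀ y ∈ U i, dist x y ≤ δ) ∧ B ⊆ ⋃ i, U i}

/-- Upper Minkowski dimension (upper box-counting dimension). -/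
noncomputable def upperMinkowski {n : ℕ} (B : Set (E n)) : EReal :=
  limsup (fun δ : ℝ => ((Real.log (coverNum B δ) / Real.log (1 / δ) : ℝ) : EReal)) (𝓝[>] 0)

/-- Packing dimension, as the countably stable version of the upper Minkowski dimension: the infimum
of the numbers `d` such that `B` is covered by countably many bounded sets of upper Minkowski dimension
at most `d`. -/
noncomputable def packingDim {n : ℕ} (B : Set (E n)) : EReal :=
  sInf {d | ∃ U : ℕ → Set (E n), (∀ i, Bornology.IsBounded (U i)) ∧ B ⊆ ⋃ i, U i ∧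
    ∀ i, upperMinkowski (U i) ≤ d}

/-- the cube `[0,1]^n` -/
def cube (n : ℕ) : Set (E n) := {r | ∀ i, r i ∈ Set.Icc (0 : ℝ) 1}

/-- `B` contains the pattern `a + t r`, `t ∈ T`, for every `r ∈ R`. -/
def HasPattern {n : ℕ} (T : Set ℝ) (R B : Set (E n)) : Prop :=
  ∀ r ∈ R, ∃ a : E n, ∀ t ∈ T, a + t • r ∈ B

/-- the Minkowski exponent of the pattern `T` -/
noncomputable def fM (T : Set ℝ) (n : ℕ) : EReal :=
  ⨅ (B : Set (E n)) (_ : Bornology.IsBounded B) (_ : HasPattern T (cube n) B), upperMinkowski B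

/-- the packing exponent of the pattern `T` -/
noncomputable def fP (T : Set ℝ) (n : ℕ) : EReal :=
  ⨅ (B : Set (E n)) (_ : Bornology.IsBounded B) (_ : HasPattern T (cube n) B), packingDim B

/-- the cross ratios of `t₀, t₁, t₂` and the elements of `T` other than `t₁` -/
def crossRatios (T : Finset ℝ) (t₀ t₁ t₂ : ℝ) : Set ℝ :=
  {x | ∃ t ∈ T, t ≠ t₁ ∧ x = ((t - t₀) * (t₂ - t₁)) / ((t - t₁) * (t₂ - t₀))}

theorem result (T : Finset ℝ) (t₀ t₁ t₂ : ℝ) (m₀ : t₀ ∈ T) (m₁ : t₁ ∈ T) (m₂ : t₂ ∈ T)
    (h₁ : t₁ ≠ t₀) (h₂ : t₂ ≠ t₁) (h₃ : t₂ ≠ t₀) :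
    -- the ratio is in the field of the cross ratios
    ((t₂ - t₀) / (t₁ - t₀) ∈ Subfield.closure (crossRatios T t₀ t₁ t₂) →
      ∃ κ : ℝ, 1 ≤ κ ∧ κ < 2 ∧ ∀ n : ℕ,
        (∃ C : ℝ, 0 < C ∧ ∀ R B : Set (E n), Bornology.IsBounded B → HasPattern (T : Set ℝ) R B →
          ∀ δ : ℝ, 0 < δ → (coverNum R δ : ℝ) ≤ C * (coverNum B δ : ℝ) ^ κ) ∧
        ((n / κ : ℝ) : EReal) ≤ fP T n ∧ fP T n ≤ fM T n) ∧
    -- the ratio is not in the field of the cross ratios
    ((t₂ - t₀) / (t₁ - t₀) ∉ Subfield.closure (crossRatios T t₀ t₁ t₂) →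
      ∀ n : ℕ, fP T n = ((n / 2 : ℝ) : EReal) ∧ fM T n = ((n / 2 : ℝ) : EReal)) := by
  constructor
  · intro hρ
    obtain ⟨κ, k1, k2, h⟩ := Run7.h912.PA.real_scales T m₀ m₁ m₂ h₁ h₂ h₃ hρ
    exact ⟨κ, k1, k2, fun n => ⟨h n, Run7.h912.PA.lower_fP k1 (h n).all,
      Pool.Agent.Run7.h70.IHP.fP_le_fM (T : Set ℝ) n⟩⟩
  · intro hρ n
    have h := Pool.Agent.Run7.h70.IHP.CF.finite_value T m₀ m₁ h₁ h₂ h₃ hρ n
    exact ⟨h.1, h.2.1⟩

end Pool.Agent.Results.MP_4b405e_nt.AlgebraicPatternsAboveHalf
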