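import Pool.Agent.Run7.h70.IHP.Final

set_option autoImplicit false

/-!
# MP_4b405e_nt: which finite patterns force dimension larger than `n/2`

For a set `T` of real numbers, `HasPattern T R B` says that `B ⊆ ℝ^n` contains, for every `r ∈ R`, a
pattern `a + t r`, `t ∈ T`; for `T = {0, 1, …, k-1}` this is a `k`-term progression with common
difference `r`. The exponents `fM T n` and `fP T n` are the infima of the upper Minkowski and of the packing
dimensions of the bounded sets `B ⊆ ℝ^n` that contain the pattern for all `r ∈ [0,1]^n`. They are at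
least `n/2` for trivial reasons (if `T` has two elements), and Q1 asks whether they tend to `n` for
progressions. We determine all finite patterns for which they are equal to `n/2`.

Let `t₀, t₁, t₂` be three elements of the finite set `T`, and let `K` be the field generated by the
cross ratios of `T` (the cross ratios of `t₀, t₁, t₂` and a fourth element suffice). If the ratio
`(t₂ - t₀) / (t₁ - t₀)` lies in `K`, both exponents are larger than `n/2`. Otherwise both are equal to
`n/2`, and there is a bounded set of upper Minkowski dimension `n/2` that contains the pattern for all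
`r ∈ [0,1]^n`. For three-term patterns the criterion is that the ratio is rational; the pattern
`{0, 1, √2, √3}` has larger exponent although no ratio of its differences is rational.

There are also infinite patterns of this kind: if `K` is a countable field and `θ ∉ K`, some set of packing
dimension at most `n/2` contains, for every `r ∈ ℝ^n`, all the points `a + v/(u + θ v) r` with `u, v ∈ K`
simultaneously, for one `a = a(r)`.

Proof of the lower bound: rounding at scale `δ`; the Balog-Szemeredi-Gowers theorem with edges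
(`Run7.h84.US.graph_lemma`); the inequalities of Ruzsa and Pluennecke for rounded dilates: the multipliers
with small rounded sums form a field. For packing dimension the pattern is localised in pieces.

Proof of the upper bound: expansions `r = ∑ κ_l (y_l - θ x_l)` where `(x_l, y_l)` runs through a finite set
`Ξ_l` such that `u x + v y` takes at most `η_l ^ (-1/2 - o(1))` values for all `u, v ∈ K`, and
`y - θ x` is `η_l`-dense in `[-1,1]`, `κ_l = η_0 ⋯ η_(l-1)`. One level: a finite subset `P` of `K` which is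
almost closed under the operations (values of polynomials, `Run7.h84.US.PV`); all values `y - θ x`,
`x, y ∈ P`, are distinct, but they may be badly spaced; sums of many random dilates of them are well
spaced, and few translates of the differences of these sums are dense. The levels grow slowly.
-/

open Filter Topology

namespace Pool.Agent.Results.MP_4b405e_nt.CrossRatioPatterns

/-- Euclidean space `ℝ^n`. -/
abbrev E (n : ℕ) := EuclideanSpace ℝ (Fin n)

/-- The least number of sets of diameter at most `δ` covering `B` (for bounded `B`). -/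
noncomputable def coverNum {n : ℕ} (B : Set (E n)) (δ : ℝ) : ℕ :=
  sInf {N | ∃ U : Fin N → Set (E n),
    (∀ i, ∀ x ∈ U i, ∀ y ∈ U i, dist x y ≤ δ) ∧ B ⊆ ⋃ i, U i}

/-- Upper Minkowski dimension (upper box-counting dimension). -/
noncomputable def upperMinkowski {n : ℕ} (B : Set (E n)) : EReal :=
  limsup (fun δ : ℝ => ((Real.log (coverNum B δ) / Real.log (1 / δ) : ℝ) : EReal)) (𝓝[>] 0)

/-- Packing dimension, as the countably stable version of the upper Minkowski dimension: the infimum
of the numbers `d` such that `B` is covered by countably many bounded sets of upper Minkowski dimension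
at most `d`. -/
noncomputable def packingDim {n : ℕ} (B : Set (E n)) : EReal :=
  sInf {d | ∃ U : ℕ → Set (E n), (∀ i, Bornology.IsBounded (U i)) ∧ B ⊆ ⋃ i, U i ∧
    ∀ i, upperMinkowski (U i) ≤ d}

/-- the cube `[0,1]^n` -/
def cube (n : ℕ) : Set (E n) := {r | ∀ i, r i ∈ Set.Icc (0 : ℝ) 1}

/-- `B` contains the pattern `a + t r`, `t ∈ T`, for every `r ∈ R`. -/
def HasPattern {n : ℕ} (T : Set ℝ) (R B : Set (E n)) : Prop :=
  ∀ r ∈ R, ∃ a : E n, ∀ t ∈ T, a + t • r ∈ B

/-- the Minkowski exponent of the pattern `T` -/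
noncomputable def fM (T : Set ℝ) (n : ℕ) : EReal :=
  ⨅ (B : Set (E n)) (_ : Bornology.IsBounded B) (_ : HasPattern T (cube n) B), upperMinkowski B

/-- the packing exponent of the pattern `T` -/
noncomputable def fP (T : Set ℝ) (n : ℕ) : EReal :=
  ⨅ (B : Set (E n)) (_ : Bornology.IsBounded B) (_ : HasPattern T (cube n) B), packingDim B

/-- the cross ratios of `t, t₂; t₀, t₁`, for `t ∈ T`, `t ≠ t₁` -/
def crossRatios (T : Set ℝ) (t₀ t₁ t₂ : ℝ) : Set ℝ :=
  {c | ∃ t ∈ T, t ≠ t₁ ∧ c = ((t - t₀) * (t₂ - t₁)) / ((t - t₁) * (t₂ - t₀))}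

theorem result :
    -- the criterion
    (∀ T : Finset ℝ, ∀ t₀ ∈ T, ∀ t₁ ∈ T, ∀ t₂ ∈ T, t₁ ≠ t₀ → t₂ ≠ t₁ → t₂ ≠ t₀ →
      ∀ n : ℕ, 1 ≤ n →
      ((t₂ - t₀) / (t₁ - t₀) ∈ Subfield.closure (crossRatios T t₀ t₁ t₂) →
        ((n / 2 : ℝ) : EReal) < fP T n ∧ ((n / 2 : ℝ) : EReal) < fM T n) ∧
      ((t₂ - t₀) / (t₁ - t₀) ∉ Subfield.closure (crossRatios T t₀ t₁ t₂) →
        fP T n = ((n / 2 : ℝ) : EReal) ∧ fM T n = ((n / 2 : ℝ) : EReal) ∧
        ∃ B : Set (E n), Bornology.IsBounded B ∧ HasPattern T (cube n) B ∧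
          upperMinkowski B = ((n / 2 : ℝ) : EReal))) ∧
    -- three-term patterns
    (∀ t₀ t₁ t₂ : ℝ, t₁ ≠ t₀ → t₂ ≠ t₁ → t₂ ≠ t₀ → ∀ n : ℕ, 1 ≤ n →
      (fM {t₀, t₁, t₂} n = ((n / 2 : ℝ) : EReal) ↔ Irrational ((t₂ - t₀) / (t₁ - t₀)))) ∧
    -- infinite patterns and all `r ∈ ℝ^n`
    (∀ K : Subfield ℝ, Countable K → ∀ θ : ℝ, θ ∉ K → ∀ n : ℕ,
      ∃ B : Set (E n), packingDim B ≤ ((n / 2 : ℝ) : EReal) ∧
        ∀ r : E n, ∃ a : E n, ∀ u ∈ K, ∀ v ∈ K, (u, v) ≠ 0 → a + (v / (u + θ * v)) • r ∈ B) ∧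
    -- the trivial lower bound
    (∀ T : Set ℝ, ∀ t₁ ∈ T, ∀ t₂ ∈ T, t₁ ≠ t₂ → ∀ n : ℕ,
      ((n / 2 : ℝ) : EReal) ≤ fP T n ∧ fP T n ≤ fM T n) := by
  refine ⟨fun T t₀ m₀ t₁ m₁ t₂ m₂ h₁ h₂ h₃ n hn => ⟨fun hρ => ?_, fun hρ => ?_⟩,
    fun t₀ t₁ t₂ h₁ h₂ h₃ n hn => ?_, fun K hK θ hθ n => ?_, fun T t₁ m₁ t₂ m₂ hne n => ?_⟩
  · have h := Pool.Agent.Run7.h70.IHP.strict hn T m₀ m₁ m₂ h₁ h₂ h₃ hρ
    exact ⟨h, h.trans_le (Pool.Agent.Run7.h70.IHP.fP_le_fM T n)⟩
  · exact Pool.Agent.Run7.h70.IHP.CF.finite_value T m₀ m₁ h₁ h₂ h₃ hρ n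
  · exact Pool.Agent.Run7.h70.IHP.CF.three h₁ h₂ h₃ hn
  · exact Pool.Agent.Run7.h70.IHP.CF.infinite_pattern K hθ n
  · exact ⟨Pool.Agent.Run7.h70.IHP.le_fP m₁ m₂ hne n, Pool.Agent.Run7.h70.IHP.fP_le_fM T n⟩

end Pool.Agent.Results.MP_4b405e_nt.CrossRatioPatterns
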