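import Pool.Agent.Run7.h758.PX.Prod

/-!
# Sets which contain all the progressions joining two sets

Let `B ⊂ ℝ^n` be bounded and contain ALL the `k`-term progressions with first term in `X` and last term
in `Z`, where `X, Z ⊆ ℝ^n` are arbitrary and `k ≥ 3` is odd, and let `R` be any set of common
differences of such progressions. Then `N_δ(R) ≤ C N_δ(B) ^ κ` for every `δ > 0` with
`κ = 2 e / (1 + e) = 1.46211…` and `C` depending on `n` only. Hence `dim B ≥ dim R / κ`, for the
upper and for the lower Minkowski dimension, and the dimension of `B` is at least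
`n (1 + e) / (2 e) > 0.6839 n` if all the differences in `[0,1]^n` occur.

The discrete form is `|X - Y| ≤ |X + Y| ^ κ` for all finite `X, Y ⊂ ℤ` (and a form with other dilates
`X + r Y`), which is the inequality of the arithmetic Kakeya conjecture for Cartesian products; the
inequality of Ruzsa gives the exponent `3 / 2`.

Proof of the discrete form. Choose for every `d ∈ D = X - Y` a representation `d = x(d) - y(d)`, and
let `h(p, q)` be the entropy of a sum of `p` independent copies of `x(d)` and `q` independent copies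
of `y(d)`, where `d` is uniform on `D`. Then `log |D| + h(p, q) ≤ h(p + 1, q) + h(p, q + 1)`, and `h` is
concave in each variable; `h(1, 1) ≤ log |X + Y|`. The inequalities with `p + q ≤ N` are combined with
weights given by a recursion, whose limit is `e - 2`.
-/

set_option autoImplicit false

open Filter Topology

namespace Pool.Agent.Results.MP_4b405e_nt.JoiningProgressions

/-- The least number of sets of diameter at most `δ` covering `B` (for bounded `B`). -/
noncomputable def coverNum {n : ℕ} (B : Set (EuclideanSpace ℝ (Fin n))) (δ : ℝ) : ℕ :=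
  sInf {N | ∃ U : Fin N → Set (EuclideanSpace ℝ (Fin n)),
    (∀ i, ∀ x ∈ U i, ∀ y ∈ U i, dist x y ≤ δ) ∧ B ⊆ ⋃ i, U i}

/-- Upper Minkowski dimension (upper box-counting dimension). -/
noncomputable def upperMinkowski {n : ℕ} (B : Set (EuclideanSpace ℝ (Fin n))) : EReal :=
  limsup (fun δ : ℝ => ((Real.log (coverNum B δ) / Real.log (1 / δ) : ℝ) : EReal)) (𝓝[>] 0)

/-- Lower Minkowski dimension (lower box-counting dimension). -/
noncomputable def lowerMinkowski {n : ℕ} (B : Set (EuclideanSpace ℝ (Fin n))) : EReal :=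
  liminf (fun δ : ℝ => ((Real.log (coverNum B δ) / Real.log (1 / δ) : ℝ) : EReal)) (𝓝[>] 0)

/-- `B` contains all the `k`-term progressions with first term in `X` and last term in `Z`. -/
def JoinedIn {n : ℕ} (k : ℕ) (X Z B : Set (EuclideanSpace ℝ (Fin n))) : Prop :=
  ∀ x ∈ X, ∀ z ∈ Z, ∀ j : ℕ, j < k → x + ((j : ℝ) / ((k : ℝ) - 1)) • (z - x) ∈ B

/-- Every `r ∈ R` is the common difference of a `k`-term progression with first term in `X` and last
term in `Z`. -/
def Joining {n : ℕ} (k : ℕ) (R X Z : Set (EuclideanSpace ℝ (Fin n))) : Prop :=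
  ∀ r ∈ R, ∃ x ∈ X, x + ((k : ℝ) - 1) • r ∈ Z

/-- the cube `[0,1]^n` -/
def cube (n : ℕ) : Set (EuclideanSpace ℝ (Fin n)) := {r | ∀ i, r i ∈ Set.Icc (0 : ℝ) 1}

/-- `κ = 2 e / (1 + e)` -/
noncomputable def kappa : ℝ := 2 * Real.exp 1 / (1 + Real.exp 1)

theorem result :
    -- arbitrary sets of common differences, every scale, both dimensions
    (∀ n : ℕ, ∃ C : ℝ, 0 < C ∧ ∀ k : ℕ, Odd k → 3 ≤ k →
      ∀ R X Z B : Set (EuclideanSpace ℝ (Fin n)), Bornology.IsBounded B →
        JoinedIn k X Z B → Joining k R X Z →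
        (∀ δ : ℝ, 0 < δ → (coverNum R δ : ℝ) ≤ C * (coverNum B δ : ℝ) ^ kappa) ∧
        (∀ s : ℝ, (s : EReal) ≤ upperMinkowski R → ((s / kappa : ℝ) : EReal) ≤ upperMinkowski B) ∧
        (∀ s : ℝ, (s : EReal) ≤ lowerMinkowski R →
          ((s / kappa : ℝ) : EReal) ≤ lowerMinkowski B)) ∧
    -- all the common differences in `[0,1]^n`
    (∀ n k : ℕ, Odd k → 3 ≤ k → ∀ X Z B : Set (EuclideanSpace ℝ (Fin n)), Bornology.IsBounded B →
      JoinedIn k X Z B → Joining k (cube n) X Z →
      ((n * ((1 + Real.exp 1) / (2 * Real.exp 1)) : ℝ) : EReal) ≤ lowerMinkowski B) ∧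
    0.6839 < (1 + Real.exp 1) / (2 * Real.exp 1) ∧
    -- the discrete form
    (∀ X Y : Finset ℤ, (((X ×ˢ Y).image fun p => p.1 - p.2).card : ℝ) ≤
      (((X ×ˢ Y).image fun p => p.1 + p.2).card : ℝ) ^ kappa) ∧
    (∀ (m : ℕ) (c : Fin (2 * m + 3) → ℚ), (∀ i, c i ≠ 0) →
      ∀ S : Finset ℚ, (∀ i j, i ≠ j → c j / c i ∈ S) → ∀ X Y : Finset ℤ,
      (((X ×ˢ Y).image fun p => p.1 - p.2).card : ℝ) ≤
        ((S.sup fun r => ((X ×ˢ Y).image fun p => (p.1 : ℚ) + r * p.2).card : ℕ) : ℝ) ^
          (kappa + 1 / (((m : ℝ) + 1) * ((m : ℝ) + 2)))) := by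
  have hneg : ∀ X Y : Finset ℤ, ((X ×ˢ Y).image fun p => p.1 - p.2).card =
      ((X ×ˢ Y).image fun p : ℤ × ℤ => (p.1 : ℚ) + (-1) * (p.2 : ℚ)).card := by
    intro X Y
    have h1 : ((X ×ˢ Y).image fun p : ℤ × ℤ => (p.1 : ℚ) + (-1) * (p.2 : ℚ)) =
        ((X ×ˢ Y).image fun p => p.1 - p.2).image (fun z : ℤ => (z : ℚ)) := by
      rw [Finset.image_image]
      apply Finset.image_congr
      intro p _
      simp only [Function.comp]
      push_cast
      ring
    rw [h1, Finset.card_image_of_injective _ Int.cast_injective]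
  have hpos : ∀ X Y : Finset ℤ, ((X ×ˢ Y).image fun p => p.1 + p.2).card =
      ((X ×ˢ Y).image fun p : ℤ × ℤ => (p.1 : ℚ) + 1 * (p.2 : ℚ)).card := by
    intro X Y
    have h1 : ((X ×ˢ Y).image fun p : ℤ × ℤ => (p.1 : ℚ) + 1 * (p.2 : ℚ)) =
        ((X ×ˢ Y).image fun p => p.1 + p.2).image (fun z : ℤ => (z : ℚ)) := by
      rw [Finset.image_image]
      apply Finset.image_congr
      intro p _
      simp only [Function.comp]
      push_cast
      ring
    rw [h1, Finset.card_image_of_injective _ Int.cast_injective]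
  refine ⟨fun n => ?_, fun n k hk hk3 X Z B hB hJ hR => ?_, Run7.h758.PX.kap0_num,
    fun X Y => ?_, fun m c hc S hS X Y => ?_⟩
  · obtain ⟨C, hC, h⟩ := Run7.h758.PX.prod_main n
    exact ⟨C, hC, fun k hk hk3 R X Z B hB hJ hR => h k hk hk3 R X Z B hB hJ hR⟩
  · obtain ⟨C, hC, h⟩ := Run7.h758.PX.prod_main n
    have h1 := (h k hk hk3 (cube n) X Z B hB hJ hR).2.2 n (V11295.ProgAny.cube_dim n)
    have h2 : (n : ℝ) * ((1 + Real.exp 1) / (2 * Real.exp 1)) =
        (n : ℝ) / Run7.h758.PX.kap0 := by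
      have hE : 0 < Real.exp 1 := Real.exp_pos 1
      unfold Run7.h758.PX.kap0
      field_simp
    rw [h2]
    exact h1
  · rw [hneg, hpos]
    exact Run7.h758.PX.single X Y
  · rw [hneg]
    exact Run7.h758.PX.slopes_bound m c hc S hS X Y

end Pool.Agent.Results.MP_4b405e_nt.JoiningProgressions
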