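import Pool.Agent.Run7.h605.KD.Dims
import Pool.Agent.TH404.AK.Sdc3

/-! # Sets containing only a proportion `δ` of a progression with every common difference

`B ⊆ ℝ^n` bounded; for every `r ∈ R` only `δ k` of the `k` terms of some progression with common
difference `r` are in `B` (`HasPart k δ R B`).

1. For every `m` and `δ > 0` and all `k ≥ K(m, δ)`: if `R ⊆ [0,1]^n`, then at EVERY scale `ε ≤ 1/2`
   `N_ε(B) ≥ (ε ^ n N_ε(R)) ε ^ (-f) / (C log (1 / ε))` with `f = f^M_n(m)`. Hence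
   `dim B ≥ f^M_n(m) - (n - dim R)` for the lower and for the upper Minkowski dimension.
2. For every `δ ∈ (0, 1]` the infima of the lower and of the upper Minkowski dimensions of the
   bounded sets with `HasPart k δ [0,1]^n B` tend to `lim_k f^M_n(k)`: Q1 is equivalent to its form
   for parts of progressions and lower Minkowski dimension.
3. `N_ε(R) ≤ C N_ε(B) ^ 1.669587` at every scale, for every `R`, as soon as `k ≥ K(δ)`.

Proof: Szemerédi's theorem; a covering argument which passes from many common differences to all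
of them; Cantor sets. -/

set_option autoImplicit false

open Filter Topology

namespace Pool.Agent.Results.MP_4b405e_nt.PartsOfProgressions

/-- The least number of sets of diameter at most `δ` covering `B` (for bounded `B`). -/
noncomputable def coverNum {n : ℕ} (B : Set (EuclideanSpace ℝ (Fin n))) (δ : ℝ) : ℕ :=
  sInf {N | ∃ U : Fin N → Set (EuclideanSpace ℝ (Fin n)),
    (∀ i, ∀ x ∈ U i, ∀ y ∈ U i, dist x y ≤ δ) ∧ B ⊆ ⋃ i, U i}

/-- Upper Minkowski dimension (upper box-counting dimension). -/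
noncomputable def upperMinkowski {n : ℕ} (B : Set (EuclideanSpace ℝ (Fin n))) : EReal :=
  limsup (fun δ : ℝ => ((Real.log (coverNum B δ) / Real.log (1 / δ) : ℝ) : EReal)) (𝓝[>] 0)

/-- Lower Minkowski dimension (lower box-counting dimension). -/
noncomputable def lowerMinkowski {n : ℕ} (B : Set (EuclideanSpace ℝ (Fin n))) : EReal :=
  liminf (fun δ : ℝ => ((Real.log (coverNum B δ) / Real.log (1 / δ) : ℝ) : EReal)) (𝓝[>] 0)

/-- the cube `[0,1]^n` -/
def cube (n : ℕ) : Set (EuclideanSpace ℝ (Fin n)) := {r | ∀ i, r i ∈ Set.Icc (0 : ℝ) 1}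

/-- `f^M_n(k)`: the infimum of the (upper) Minkowski dimensions of the bounded sets in `ℝ^n` that
contain a `k`-term progression with every common difference in `[0,1]^n` -/
noncomputable def fM (n k : ℕ) : EReal :=
  ⨅ (B : Set (EuclideanSpace ℝ (Fin n))) (_ : Bornology.IsBounded B)
    (_ : ∀ r ∈ cube n, ∃ a : EuclideanSpace ℝ (Fin n), ∀ j : ℕ, j < k → a + (j : ℝ) • r ∈ B),
    upperMinkowski B

/-- For every `r ∈ R` the set `B` contains at least `δ k` of the `k` terms of some progression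
`a, a + r, …, a + (k - 1) r` with common difference `r`. -/
def HasPart {n : ℕ} (k : ℕ) (δ : ℝ) (R B : Set (EuclideanSpace ℝ (Fin n))) : Prop :=
  ∀ r ∈ R, ∃ a : EuclideanSpace ℝ (Fin n), ∃ J : Finset ℕ, J ⊆ Finset.range k ∧
    δ * k ≤ (J.card : ℝ) ∧ ∀ j ∈ J, a + (j : ℝ) • r ∈ B

/-- the infimum of the lower Minkowski dimensions of the bounded sets with
`HasPart k δ [0,1]^n B` -/
noncomputable def partLower (n k : ℕ) (δ : ℝ) : EReal :=
  ⨅ (B : Set (EuclideanSpace ℝ (Fin n))) (_ : Bornology.IsBounded B)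
    (_ : HasPart k δ (cube n) B), lowerMinkowski B

/-- the infimum of the upper Minkowski dimensions of the bounded sets with
`HasPart k δ [0,1]^n B` -/
noncomputable def partUpper (n k : ℕ) (δ : ℝ) : EReal :=
  ⨅ (B : Set (EuclideanSpace ℝ (Fin n))) (_ : Bornology.IsBounded B)
    (_ : HasPart k δ (cube n) B), upperMinkowski B

theorem limits (n : ℕ) {δ : ℝ} (hδ : 0 < δ) (hδ1 : δ ≤ 1) :
    Tendsto (fun k => fM n k) atTop (𝓝 (⨆ k, fM n k)) ∧
    Tendsto (fun k => partLower n k δ) atTop (𝓝 (⨆ k, fM n k)) ∧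
    Tendsto (fun k => partUpper n k δ) atTop (𝓝 (⨆ k, fM n k)) :=
  ⟨Run7.h605.KD.fM_tendsto n,
    Run7.h605.KD.squeeze n hδ (fun k => Run7.h605.KD.fLower n k δ) (fun _ => le_rfl)
      (fun k => (Run7.h605.KD.fLower_le_fUpper n k δ).trans (Run7.h605.KD.fUpper_le_fM n k hδ1)),
    Run7.h605.KD.squeeze n hδ (fun k => Run7.h605.KD.fUpper n k δ)
      (fun k => Run7.h605.KD.fLower_le_fUpper n k δ)
      (fun k => Run7.h605.KD.fUpper_le_fM n k hδ1)⟩

theorem result :
    -- 1. parts of progressions, arbitrary sets of common differences, every scale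
    (∀ m : ℕ, ∀ δ : ℝ, 0 < δ → ∃ K : ℕ, ∀ k : ℕ, K ≤ k → ∀ n : ℕ, ∃ C : ℝ, 0 < C ∧
      ∀ s : ℝ, 0 ≤ s → (s : EReal) ≤ fM n m →
      ∀ R B : Set (EuclideanSpace ℝ (Fin n)), R ⊆ cube n → Bornology.IsBounded B →
        HasPart k δ R B →
        (∀ ε : ℝ, 0 < ε → ε ≤ 1 / 2 → (coverNum R ε : ℝ) * (1 / ε) ^ s ≤
          C * ((1 / ε) ^ n * Real.log (1 / ε) * coverNum B ε)) ∧
        (R.Nonempty →
          (∀ t : ℝ, (t : EReal) ≤ lowerMinkowski R →
            ((s + t - n : ℝ) : EReal) ≤ lowerMinkowski B) ∧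
          (∀ t : ℝ, (t : EReal) ≤ upperMinkowski R →
            ((s + t - n : ℝ) : EReal) ≤ upperMinkowski B))) ∧
    -- 2. the limits
    (∀ n : ℕ, ∀ δ : ℝ, 0 < δ → δ ≤ 1 →
      Tendsto (fun k => fM n k) atTop (𝓝 (⨆ k, fM n k)) ∧
      Tendsto (fun k => partLower n k δ) atTop (𝓝 (⨆ k, fM n k)) ∧
      Tendsto (fun k => partUpper n k δ) atTop (𝓝 (⨆ k, fM n k)) ∧
      (Tendsto (fun k => fM n k) atTop (𝓝 ((n : ℝ) : EReal)) ↔
        Tendsto (fun k => partLower n k δ) atTop (𝓝 ((n : ℝ) : EReal)))) ∧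
    -- 3. the exponent `1.669587`
    (∀ δ : ℝ, 0 < δ → ∃ K : ℕ, ∀ k : ℕ, K ≤ k → ∀ n : ℕ, ∃ C : ℝ, 0 < C ∧
      ∀ R B : Set (EuclideanSpace ℝ (Fin n)), Bornology.IsBounded B → HasPart k δ R B →
        (∀ ε : ℝ, 0 < ε → (coverNum R ε : ℝ) ≤ C * (coverNum B ε : ℝ) ^ (1.669587 : ℝ)) ∧
        (∀ s : ℝ, (s : EReal) ≤ upperMinkowski R →
          ((s / 1.669587 : ℝ) : EReal) ≤ upperMinkowski B) ∧
        (∀ s : ℝ, (s : EReal) ≤ lowerMinkowski R →
          ((s / 1.669587 : ℝ) : EReal) ≤ lowerMinkowski B)) := by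
  refine ⟨fun m δ hδ => ?_, fun n δ hδ hδ1 => ?_, fun δ hδ => ?_⟩
  · obtain ⟨K, hK⟩ := Run7.h605.KD.all_scales m hδ
    refine ⟨K, fun k hk n => ?_⟩
    obtain ⟨C, hC, h⟩ := hK k hk n
    refine ⟨C, hC, fun s hs0 hs R B hR hB hP => ?_⟩
    have h1 := h s hs0 hs R B hR hB hP
    have hRb : Bornology.IsBounded R := (Pool.Agent.V11295.ProgAny.cube_bounded n).subset hR
    exact ⟨h1, fun hne => ⟨fun t ht => Run7.h605.KD.lower_dim hC hRb hne h1 ht,
      fun t ht => Run7.h605.KD.upper_dim hC hRb hne h1 ht⟩⟩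
  · obtain ⟨h1, h2, h3⟩ := limits n hδ hδ1
    refine ⟨h1, h2, h3, fun h => ?_, fun h => ?_⟩
    · rw [tendsto_nhds_unique h h1]
      exact h2
    · rw [tendsto_nhds_unique h h2]
      exact h1
  · have hsd : Pool.Agent.W46.KK.SD (1669587 / 1000000) := by
      obtain ⟨S, h⟩ := Pool.Agent.TH404.AK.sdc3
      exact ⟨S, h⟩
    have e : (1.669587 : ℝ) = 1669587 / 1000000 := by norm_num
    rw [e]
    obtain ⟨K, hK⟩ := Run7.h605.KD.exponent hsd (by norm_num) hδ
    refine ⟨K, fun k hk n => ?_⟩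
    obtain ⟨C, hC, h⟩ := hK k hk n
    refine ⟨C, hC, fun R B hB hP => ?_⟩
    have h1 := h R B hB hP
    exact ⟨h1, fun s hs => Pool.Agent.V11295.ProgAny.upper_of (by norm_num) hC h1 s hs,
      fun s hs => Pool.Agent.V11295.ProgAny.lower_of (by norm_num) hC h1 s hs⟩

end Pool.Agent.Results.MP_4b405e_nt.PartsOfProgressions
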